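import Pool.Agent.Q157.OM.Stm
import Pool.Agent.Q149.OM.El
import Pool.Agent.Q182.OM.Seg
import Pool.Agent.Q182.OM.Ramsey
import Pool.Agent.Q182.OM.Count
import Pool.Agent.Q166.OM.SQ
import Pool.Agent.Q277.OM.Struct
import Pool.Agent.Q277.OM.Bad
import Pool.Agent.Q24.OM.Split
import Pool.Agent.Q24.OM.SW
import Pool.Agent.Q121.OM.FH
import Pool.Agent.Q153.OM.Expo
import Pool.Agent.Q156.OM.Place
import Pool.Agent.Q121.OM.Final
import Pool.Agent.Q121.OM.Up
import Pool.Agent.Q121.OM.Low
import Pool.Agent.Q121.OM.Few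
import Pool.Agent.Q121.OM.Cells
import Pool.Agent.Q121.OM.Deplete
import Pool.Agent.Q121.OM.First

/-! # Project OM: all the steps together -/

set_option autoImplicit false

namespace Pool.Agent.Q157.OM

theorem a_el : S_el := Pool.Agent.Q149.OM.t_el

theorem a_mono : S_mono := Pool.Agent.Q149.OM.t_mono a_el

theorem a_word : S_word := Pool.Agent.Q149.OM.t_word a_el a_mono

theorem a_bal : S_bal := Pool.Agent.Q149.OM.t_bal a_el

theorem a_seg : S_seg := Pool.Agent.Q182.OM.seg a_el

theorem a_sq : S_sq := Pool.Agent.Q166.OM.sq a_el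

theorem a_closed : S_closed := Pool.Agent.Q166.OM.closed

theorem a_struct : S_struct := Pool.Agent.Q277.OM.struct a_el a_word a_bal a_seg a_sq

theorem a_split : S_split := Pool.Agent.Q24.OM.split

theorem a_FH : S_FH := Pool.Agent.Q121.OM.FH

theorem a_SW : S_SW := Pool.Agent.Q24.OM.SW a_FH

theorem a_ramsey : S_ramsey := Pool.Agent.Q182.OM.ramsey Pool.Agent.Q182.OM.grid

theorem a_bad : S_bad :=
  Pool.Agent.Q277.OM.bad a_el a_word a_bal a_sq a_struct a_split a_ramsey

theorem a_count : S_count := Pool.Agent.Q182.OM.count a_el a_sq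

theorem a_expo : S_expo := Pool.Agent.Q153.OM.expo a_closed a_SW a_bad a_count

theorem a_rec : S_rec := Pool.Agent.Q156.OM.rec

theorem a_num : S_num := Pool.Agent.Q156.OM.num a_rec

theorem a_avoid : S_avoid := Pool.Agent.Q156.OM.avoid a_rec a_num

theorem a_place : S_place := Pool.Agent.Q156.OM.place a_el a_mono

theorem a_first : S_first := Pool.Agent.Q121.OM.first a_rec a_num a_place

theorem a_quot : S_quot := Pool.Agent.Q121.OM.quot

theorem a_up : S_up := Pool.Agent.Q121.OM.up a_rec a_num a_expo a_first a_quot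

theorem a_cells : S_cells := Pool.Agent.Q121.OM.cells a_el a_word a_sq

theorem a_deplete : S_deplete := Pool.Agent.Q121.OM.deplete

theorem a_few : S_few := Pool.Agent.Q121.OM.few a_rec a_num a_avoid a_cells a_deplete

theorem a_low : S_low := Pool.Agent.Q121.OM.low a_few

theorem a_final : S_final := Pool.Agent.Q121.OM.final a_rec a_num a_up a_low

end Pool.Agent.Q157.OM
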