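import Mathlib

/-!
# Project OM (MP_d24be6_pr): cliques of pairwise non-harmonious patterns in random ordered matchings

Definitions and the statements of the steps. Each step `S_x : Prop` has a docstring with its proof.

Overview. A clique with `k` edges `x 0, …, x (k-1)` (sorted by the first elements) is determined by the
word which tells the level (place in its edge) of each of the `r k` vertices and by the permutations
`π_i` comparing the `i`-th elements. For fixed `i` the permutations that occur form a class closed under
taking patterns. If it contained all the permutations, then (Ramsey for pairs, in a grid) there would be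
two patterns `P0`, `P1` of the family such that all the permutations occur with `P0` at all
non-inversions and `P1` at all inversions; both are collectable, and they have the same composition as
the cycle with four vertices is not an interval graph: they are harmonious. So some permutation does not
occur, and by the theorem of Marcus and Tardos the class is exponentially small. The upper bound is the
first moment, the lower bound is a direct argument for the collectable pattern.
-/

set_option autoImplicit false

namespace Pool.Agent.Q157.OM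

open Finset Filter Topology

/-! ### The definitions of the final statement -/

/-- The two letters of the patterns. -/
inductive Letter
  | A
  | B
  deriving DecidableEq

/-- `M` is an ordered `r`-matching with vertex set `W`: a partition of `W` into sets of size `r`. -/
def IsMatching (r : ℕ) (W : Finset ℕ) (M : Finset (Finset ℕ)) : Prop :=
  (∀ e ∈ M, e.card = r) ∧ (∀ e ∈ M, ∀ f ∈ M, e ≠ f → Disjoint e f) ∧ M.biUnion id = W

/-- The elements of `e ∪ f` in increasing order, with `A` for the elements of `e` and `B` for the
others. -/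
def word (e f : Finset ℕ) : List Letter :=
  ((e ∪ f).sort (· ≤ ·)).map (fun x => if x ∈ e then Letter.A else Letter.B)

/-- The pattern formed by two disjoint nonempty sets: the letter `A` is used for the set which
contains the smallest element. -/
def pattern (e f : Finset ℕ) : List Letter := if e.min ≤ f.min then word e f else word f e

/-- `P` is an `r`-pattern (the pattern of two disjoint sets of size `r`): a word with `r` letters `A`
and `r` letters `B` whose first letter is `A`. -/
def IsPattern (r : ℕ) (P : List Letter) : Prop :=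
  P.count Letter.A = r ∧ P.count Letter.B = r ∧ P.head? = some Letter.A

/-- Every two edges of `N` form a pattern in `Ps`. -/
def IsClique (Ps : Set (List Letter)) (N : Finset (Finset ℕ)) : Prop :=
  ∀ e ∈ N, ∀ f ∈ N, e ≠ f → pattern e f ∈ Ps

open Classical in
/-- The largest number of edges of a `Ps`-clique contained in `M`. -/
noncomputable def z (Ps : Set (List Letter)) (M : Finset (Finset ℕ)) : ℕ :=
  (M.powerset.filter (fun N => IsClique Ps N)).sup Finset.card

/-- There are arbitrarily large `{P}`-cliques. -/
def Collectable (r : ℕ) (P : List Letter) : Prop :=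
  ∀ k : ℕ, ∃ (W : Finset ℕ) (N : Finset (Finset ℕ)), IsMatching r W N ∧ IsClique {P} N ∧ k ≤ N.card

/-- The block `A^t B^t` or `B^t A^t`. -/
def block (t : ℕ) (b : Bool) : List Letter :=
  if b then List.replicate t Letter.A ++ List.replicate t Letter.B
  else List.replicate t Letter.B ++ List.replicate t Letter.A

/-- `P` splits into consecutive blocks `A^t B^t` or `B^t A^t` with `t ≥ 1`, and `l` is the list of the
numbers `t`. -/
def HasComposition (P : List Letter) (l : List ℕ) : Prop :=
  (∀ t ∈ l, 1 ≤ t) ∧ ∃ d : List Bool, d.length = l.length ∧ P = (List.zipWith block l d).flatten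

/-- Two distinct patterns are harmonious if both are collectable and have the same composition. -/
def Harmonious (r : ℕ) (P Q : List Letter) : Prop :=
  P ≠ Q ∧ Collectable r P ∧ Collectable r Q ∧ ∃ l : List ℕ, HasComposition P l ∧ HasComposition Q l

/-- The probability of the property `E` for the uniformly random ordered `r`-matching on
`{1, …, r n}`. -/
noncomputable def prob (r n : ℕ) (E : Finset (Finset ℕ) → Prop) : ℝ :=
  (Nat.card {M : Finset (Finset ℕ) // IsMatching r (Icc 1 (r * n)) M ∧ E M} : ℝ) /
    Nat.card {M : Finset (Finset ℕ) // IsMatching r (Icc 1 (r * n)) M}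

/-! ### Elements of an edge -/

/-- The `i`-th smallest element of `e` (`i = 0, 1, …`). -/
def el (e : Finset ℕ) (i : ℕ) : ℕ := (e.sort (· ≤ ·)).getD i 0

/-- Basic facts on `el`. Proof: `Finset.sort` is sorted, without repetitions, its members are the
elements of `e`, its length is `e.card`; for the last two: `Finset.sort` of an image under a function
strictly monotone on `e` is the `map` of the sort (uniqueness of sorted lists,
`List.eq_of_perm_of_sorted` or `Finset.orderEmbOfFin_unique`). -/
def S_el : Prop :=
  (∀ (e : Finset ℕ) (i : ℕ), i < e.card → el e i ∈ e) ∧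
  (∀ (e : Finset ℕ) (i j : ℕ), i < j → j < e.card → el e i < el e j) ∧
  (∀ (e : Finset ℕ) (x : ℕ), x ∈ e → ∃ i < e.card, el e i = x) ∧
  (∀ (e : Finset ℕ) (g : ℕ → ℕ), (∀ x ∈ e, ∀ y ∈ e, x < y → g x < g y) →
    ∀ i < e.card, el (e.image g) i = g (el e i)) ∧
  (∀ (e : Finset ℕ) (r : ℕ) (y : ℕ → ℕ), e.card = r → (∀ i < r, y i ∈ e) →
    (∀ i j, i < j → j < r → y i < y j) → ∀ i < r, el e i = y i) ∧
  (∀ e f : Finset ℕ, 0 < e.card → 0 < f.card → (e.min ≤ f.min ↔ el e 0 ≤ el f 0))

/-- The word is invariant under maps strictly monotone on the union. Proof: `(e ∪ f).image g` is sorted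
by the image of the sort (as in `S_el`), and `g` is injective on `e ∪ f`. The pattern: `min` of the
image is the image of `min`. -/
def S_mono : Prop :=
  ∀ (e f : Finset ℕ) (g : ℕ → ℕ), (∀ x ∈ e ∪ f, ∀ y ∈ e ∪ f, x < y → g x < g y) →
    word (e.image g) (f.image g) = word e f ∧ pattern (e.image g) (f.image g) = pattern e f

/-- The word of two disjoint sets of size `r` is determined by the comparisons of their elements, and
conversely. Proof: (←) there is a bijection `g` from `e ∪ f` to `e' ∪ f'`, `el e i ↦ el e' i`,
`el f j ↦ el f' j`, which is strictly increasing by the hypothesis (comparisons within `e` and within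
`f` hold in any case; `el f j < el e i` is the negation of `el e i < el f j` as the sets are disjoint);
use `S_mono` (extend `g` by anything outside). (→) the position of the `i`-th letter `A` and of the
`j`-th letter `B` in the word are determined by the word, and `el e i < el f j` iff the position of the
`i`-th `A` is smaller than that of the `j`-th `B`. For instance: `el e i < el f j` iff the number of the
letters `A` before the `j`-th letter `B` is larger than `i`. -/
def S_word : Prop :=
  ∀ (r : ℕ) (e f e' f' : Finset ℕ), e.card = r → f.card = r → e'.card = r → f'.card = r →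
    Disjoint e f → Disjoint e' f' →
    (word e f = word e' f' ↔
      ∀ i < r, ∀ j < r, (el e i < el f j ↔ el e' i < el f' j))

/-- the prefix of length `2 i` of the word has `i` letters `A` (it is balanced) -/
def Bal (P : List Letter) (i : ℕ) : Prop := (P.take (2 * i)).count Letter.A = i

/-- The prefix of length `2 i` is balanced iff the first `i` elements of `e` and of `f` come before all
the other ones. Proof: the word has length `2 r`; the number of the letters `A` in the prefix of length
`2 i` is the number of the elements of `e` among the `2 i` smallest elements of `e ∪ f`; it is `i` iff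
these are the first `i` elements of `e` and the first `i` elements of `f`. -/
def S_bal : Prop :=
  ∀ (r : ℕ) (e f : Finset ℕ), e.card = r → f.card = r → Disjoint e f →
    (word e f).length = 2 * r ∧ (word e f).count Letter.A = r ∧ (word e f).count Letter.B = r ∧
    ∀ i, 0 < i → i < r →
      (Bal (word e f) i ↔ el e (i - 1) < el f i ∧ el f (i - 1) < el e i)

/-- The segment of the word between two balanced places, when the elements of one edge between these
places all come before those of the other one. Here `a < b ≤ r`, all the elements of `e` and `f` with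
index `< a` come before those with index `≥ a`, and the same for `b`. Proof: the `2 b` smallest elements
of `e ∪ f` are the first `b` elements of both, the `2 a` smallest are the first `a` elements of both;
the sorted list of the elements with indices in `[a, b)` is first those of `e`, then those of `f` (or
the other way round). -/
def S_seg : Prop :=
  ∀ (r : ℕ) (e f : Finset ℕ), e.card = r → f.card = r → Disjoint e f →
    ∀ a b, a < b → b ≤ r →
      (0 < a → el e (a - 1) < el f a ∧ el f (a - 1) < el e a) →
      (b < r → el e (b - 1) < el f b ∧ el f (b - 1) < el e b) →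
      (el e (b - 1) < el f a → ((word e f).drop (2 * a)).take (2 * (b - a)) = block (b - a) true) ∧
      (el f (b - 1) < el e a → ((word e f).drop (2 * a)).take (2 * (b - a)) = block (b - a) false)

/-! ### Sequences of edges -/

/-- `x 0, …, x (k-1)` are pairwise disjoint sets of size `r`, sorted by the first elements, and the
words of the pairs are in `Ps`: the edges of a `Ps`-clique. -/
def Sq (r : ℕ) (Ps : Set (List Letter)) (k : ℕ) (x : Fin k → Finset ℕ) : Prop :=
  (∀ a, (x a).card = r) ∧
    ∀ a b, a < b → Disjoint (x a) (x b) ∧ el (x a) 0 < el (x b) 0 ∧ word (x a) (x b) ∈ Ps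

/-- The permutation `π` occurs at the level `i`. -/
def Occ (r : ℕ) (Ps : Set (List Letter)) (i k : ℕ) (π : Equiv.Perm (Fin k)) : Prop :=
  ∃ x : Fin k → Finset ℕ, Sq r Ps k x ∧ ∀ a b, el (x a) i < el (x b) i ↔ π a < π b

/-- `π` contains the pattern `τ`. -/
def Contains {n m : ℕ} (π : Equiv.Perm (Fin n)) (τ : Equiv.Perm (Fin m)) : Prop :=
  ∃ φ : Fin m ↪o Fin n, ∀ a b, τ a < τ b ↔ π (φ a) < π (φ b)

/-- Cliques and sequences. Proof: sort the edges by their smallest elements, e.g. with an order
isomorphism of `Fin k` and the set of the smallest elements (`Finset.orderIsoOfFin`); `r ≥ 1`, so the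
smallest elements are different. For the second statement `N` is the image of `x` (which is injective
as `r ≥ 1` and the sets are disjoint). -/
def S_sq : Prop :=
  ∀ (r : ℕ) (Ps : Set (List Letter)), 1 ≤ r →
    (∀ (k : ℕ) (W : Finset ℕ) (N : Finset (Finset ℕ)), IsMatching r W N → IsClique Ps N →
      N.card = k → ∃ x : Fin k → Finset ℕ, Sq r Ps k x ∧ Finset.univ.image x = N) ∧
    (∀ (k : ℕ) (x : Fin k → Finset ℕ), Sq r Ps k x →
      IsMatching r (Finset.univ.biUnion x) (Finset.univ.image x) ∧
        IsClique Ps (Finset.univ.image x) ∧ (Finset.univ.image x).card = k ∧ Function.Injective x)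

/-- Patterns of occurring permutations occur. Proof: compose `x` with `φ`. -/
def S_closed : Prop :=
  ∀ (r : ℕ) (Ps : Set (List Letter)) (i n m : ℕ) (π : Equiv.Perm (Fin n)) (τ : Equiv.Perm (Fin m)),
    Occ r Ps i n π → Contains π τ → Occ r Ps i m τ

/-! ### Collectable patterns -/

/-- The structure of a collectable pattern. Proof: take a `{P}`-clique with `r + 1` edges as a sequence
`x` (`S_sq`; a subset of a clique is a clique). By `S_word` the comparison of `el (x s) i` and
`el (x t) j`, `s < t`, does not depend on `s < t`. Let `a < b ≤ r`, `P` balanced at `a` (or `a = 0`) and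
at `b` (or `b = r`), not balanced at all `i` with `a < i < b`. By `S_bal`, for `a < i < b` either
`el f i < el e (i-1)` or `el e i < el f (i-1)` for all the pairs `e = x s`, `f = x t`, `s < t` (not
balanced at `i`, and the sets are disjoint); the direction is the same for `i` and `i + 1` (compare
`el e i` and `el f i`), so it is the same for all `i`. If `el e i < el f (i-1)` for all `a < i < b`,
then `el (x 0) (b-1) < el (x 1) (b-2) < … < el (x (b-1-a)) a`, hence `el e (b-1) < el f a` for all the
pairs (`S_word` for the pair `(0, b-1-a)`; if `b = a + 1` use the comparison of `el e a` and `el f a`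
directly); the other case is the same. Now `S_seg`. -/
def S_struct : Prop :=
  ∀ (r : ℕ) (P : List Letter), 1 ≤ r → IsPattern r P → Collectable r P →
    ∀ a b, a < b → b ≤ r → (0 < a → Bal P a) → (b < r → Bal P b) →
      (∀ i, a < i → i < b → ¬ Bal P i) →
      ∃ d : Bool, (P.drop (2 * a)).take (2 * (b - a)) = block (b - a) d

/-- Lists: two words with blocks between the balanced places, which are balanced at the same places,
have a common composition. Proof: strong induction on `r`: let `b` be the smallest `b` with `0 < b ≤ r`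
such that `b = r` or `Bal P b`. The prefixes of length `2 b` of `P` and `Q` are blocks with `t = b`
(hypothesis with `a = 0`); apply the induction hypothesis to `P.drop (2 b)`, `Q.drop (2 b)` with
`r - b`; here `Bal (P.drop (2 b)) i ↔ Bal P (b + i)` as the prefix of length `2 b` is balanced. -/
def S_split : Prop :=
  ∀ (r : ℕ) (P Q : List Letter), P.length = 2 * r → Q.length = 2 * r →
    (∀ i, 0 < i → i < r → (Bal P i ↔ Bal Q i)) →
    (∀ R ∈ [P, Q], ∀ a b, a < b → b ≤ r → (0 < a → Bal R a) → (b < r → Bal R b) →
      (∀ i, a < i → i < b → ¬ Bal R i) →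
      ∃ d : Bool, (R.drop (2 * a)).take (2 * (b - a)) = block (b - a) d) →
    ∃ l : List ℕ, HasComposition P l ∧ HasComposition Q l

/-! ### Permutations -/

/-- Füredi–Hajnal (Marcus–Tardos): a set of more than `c n` entries of an `n × n` matrix contains the
permutation matrix of `τ`. Proof (Marcus–Tardos): `m = k`. Let `f n` be the largest size of a set of
entries avoiding `τ`. Divide the matrix into blocks of size `k² × k²`. A block is wide (tall) if it has
entries in at least `k` columns (rows). In each column of blocks there are less than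
`k (k² choose k)` wide blocks, as otherwise `k` of them have entries in the same `k` columns, which gives
`τ`; the same for tall blocks and rows of blocks. The matrix of the nonempty blocks avoids `τ`. A block
that is neither wide nor tall has at most `(k-1)²` entries. So
`f (k² n) ≤ (k-1)² f n + 2 k⁴ k (k² choose k) n`, and `f n' ≤ f n'' + 2 k² n'` for
`n' ≤ n'' + k²`; by induction `f n ≤ c n` with `c = 2 k⁴ (k² choose k) ·` (some constant). -/
def S_FH : Prop :=
  ∀ (m : ℕ) (τ : Equiv.Perm (Fin m)), ∃ c : ℕ, ∀ (n : ℕ) (M : Finset (Fin n × Fin n)),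
    (¬ ∃ φ ψ : Fin m ↪o Fin n, ∀ a, (φ a, ψ (τ a)) ∈ M) → M.card ≤ c * n

/-- Stanley–Wilf from Füredi–Hajnal (Klazar). Proof: let `T n` be the number of the sets of entries of
an `n × n` matrix which avoid `τ`. Contracting `2 × 2` blocks maps the sets avoiding `τ` in the
`2 n × 2 n` matrix (or the `(2n-1) × (2n-1)` matrix) to sets avoiding `τ` in the `n × n` matrix, and a
set with `w` entries has at most `15 ^ w` preimages, so `T (2 n) ≤ T n * 15 ^ (c n)`, and
`T n ≤ 15 ^ (c (n/2 + n/4 + …)) ·` const. A permutation `π` avoiding `τ` gives its matrix, a set that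
avoids `τ` (if `(φ a, ψ (τ a))` are entries of `π` for all `a` then `π (φ a) = ψ (τ a)`). The case
`m = 0` is trivial; note that for `n = 0` there is at most one permutation. -/
def S_SW : Prop :=
  ∀ (m : ℕ) (τ : Equiv.Perm (Fin m)), ∃ C : ℕ, ∀ n : ℕ,
    Nat.card {π : Equiv.Perm (Fin n) // ¬ Contains π τ} ≤ C ^ n

/-- Ramsey's theorem for a grid: product version. Proof: Ramsey's theorem for pairs with finitely many
colours (on main: `H267R3.Folk.ramseyPairs` in `Pool/Agent/H267R3/Folk.lean`, or
`Pool.Agent.H24R3.PolyNorm.ramsey` in `Pool/Agent/H24R3/PolyNorm.lean` (infinite version)) twice: let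
`N₁` be a Ramsey number for `m` and the colours `κ`, `N₂` one for `m` and the colours
`(Fin N₁ → Fin N₁ → κ)`; take `N = max N₁ N₂`: colour the pair `x < x'` by the function
`(y, y') ↦ c x x' y y'` on the first `N₁` values, get `f`, then the pairs `y < y'`, get `g`. -/
def S_grid : Prop :=
  ∀ (κ : Type) [Finite κ] [Nonempty κ] (m : ℕ), ∃ N : ℕ, ∀ c : Fin N → Fin N → Fin N → Fin N → κ,
    ∃ (f g : Fin m ↪o Fin N) (k : κ), ∀ a b a' b' : Fin m, a < b → a' < b' →
      c (f a) (f b) (g a') (g b') = k

/-- Ramsey's theorem for permutations, universal form. Proof: `N` from `S_grid` for the colours `κ × κ`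
and `K = N * N`; the points of the grid `(s, t)`, `s, t < N`, in the order `s N + t`, and `τ` is the
permutation `s N + t ↦ t N + s`. For `s < s'`, `t < t'` the pair `(s, t), (s', t')` is a non-inversion
and the pair `(s, t'), (s', t)` an inversion. Colour `(s, s', t, t')` by the pair of the colours of the
two pairs. Let `f, g, (c0, c1)` be as in `S_grid`; for `σ` take `φ a = (f a, g (σ a))`. -/
def S_ramsey : Prop :=
  ∀ (κ : Type) [Finite κ] [Nonempty κ] (m : ℕ), ∃ (K : ℕ) (τ : Equiv.Perm (Fin K)),
    ∀ c : Fin K → Fin K → κ, ∃ c0 c1 : κ, ∀ σ : Equiv.Perm (Fin m), ∃ φ : Fin m ↪o Fin K,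
      (∀ a b, σ a < σ b ↔ τ (φ a) < τ (φ b)) ∧
      (∀ a b, a < b → σ a < σ b → c (φ a) (φ b) = c0) ∧
      (∀ a b, a < b → σ b < σ a → c (φ a) (φ b) = c1)

/-- Some permutation does not occur. Proof: suppose that all the permutations occur at the level `i`.
`Ps` is finite (words of length `2 r` over two letters) and nonempty. For every `m` take `K, τ` from
`S_ramsey` for `κ = Ps` and `m`, a sequence `x` for `τ`, and the colouring of the pairs `a < b` by
`word (x a) (x b)`. So there are `P0, P1 ∈ Ps` such that for every `σ : Perm (Fin m)` there is a sequence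
`y : Fin m → Finset ℕ` (namely `x ∘ φ`), `Sq r Ps m y`, with `el (y a) i < el (y b) i ↔ σ a < σ b` and,
for `a < b`, `word (y a) (y b) = P0` if `σ a < σ b` and `= P1` if `σ b < σ a`. Infinitely many `m` give
the same `P0, P1` (pigeonhole). `σ = 1`: `P0` is collectable; `σ` = reversal (`Fin.revPerm`): `P1` is
collectable (`S_sq`, `Sq r {P0} m y`). `P0 ≠ P1` by `S_word` as the comparison of the elements with
index `i` is different (`m ≥ 2`). Balanced places: let `0 < b < r`, `m ≥ 4`. If `Bal P0 b` and not
`Bal P1 b`, take `σ` with `σ 1 < σ 0 < σ 3 < σ 2` (for instance a product of two transpositions) and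
the sequence `y`; by `S_bal`, with `l_s = el (y s) (b-1) < u_s = el (y s) b`, the intervals
`[l_s, u_s]` for `s = 0, 1` are disjoint, those for `s = 2, 3` are disjoint, the other pairs meet:
impossible (`omega`). If `Bal P1 b` and not `Bal P0 b`: `σ` with `σ 2 < σ 3 < σ 0 < σ 1`. So `P0` and
`P1` are balanced at the same places, and `S_struct`, `S_split` give a common composition: `P0` and `P1`
are harmonious. (The length of a pattern is `2 r`: letters `A` and `B`.) -/
def S_bad : Prop :=
  ∀ (r : ℕ) (Ps : Set (List Letter)), 1 ≤ r → (∀ P ∈ Ps, IsPattern r P) →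
    (∀ P ∈ Ps, ∀ Q ∈ Ps, ¬ Harmonious r P Q) → ∀ i < r,
    ∃ (K : ℕ) (τ : Equiv.Perm (Fin K)), ¬ Occ r Ps i K τ

/-- The number of the cliques on `[r k]`. Proof: for a clique `N` on `{1, …, r k}` (it has `k` edges)
take the sequence `x` of `S_sq`; let `w : Fin (r k) → Fin r` give for `v` the index `i` with
`v + 1 = el (x a) i` for some `a`, and for `i < r` let `π_i` be the permutation with
`π_i a < π_i b ↔ el (x a) i < el (x b) i` (`π_i a` is the number of the `b` with
`el (x b) i < el (x a) i`). `(w, π_0, …, π_(r-1))` determines `N`: `el (x a) i` is the element number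
`π_i a` of the set of the `v` with level `i`. -/
def S_count : Prop :=
  ∀ (r k : ℕ) (Ps : Set (List Letter)), 1 ≤ r →
    Nat.card {N : Finset (Finset ℕ) // IsMatching r (Icc 1 (r * k)) N ∧ IsClique Ps N} ≤
      r ^ (r * k) * ∏ i ∈ range r, Nat.card {π : Equiv.Perm (Fin k) // Occ r Ps i k π}

/-- The number of the cliques is at most exponential. Proof: by `S_bad` for each `i < r` some `τ_i` does
not occur, by `S_closed` all the occurring permutations avoid it, so their number is at most `C_i ^ k`
by `S_SW`; `S_count`. -/
def S_expo : Prop :=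
  ∀ (r : ℕ) (Ps : Set (List Letter)), 1 ≤ r → (∀ P ∈ Ps, IsPattern r P) →
    (∀ P ∈ Ps, ∀ Q ∈ Ps, ¬ Harmonious r P Q) →
    ∃ C : ℕ, 1 ≤ C ∧ ∀ k : ℕ,
      Nat.card {N : Finset (Finset ℕ) // IsMatching r (Icc 1 (r * k)) N ∧ IsClique Ps N} ≤ C ^ k

/-! ### Counting matchings -/

open Classical in
/-- all the matchings on `W` -/
noncomputable def MS (r : ℕ) (W : Finset ℕ) : Finset (Finset (Finset ℕ)) :=
  W.powerset.powerset.filter (fun M => IsMatching r W M)

open Classical in
/-- the number of the matchings on `W` without edges in `F` -/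
noncomputable def av (r : ℕ) (F : Set (Finset ℕ)) (W : Finset ℕ) : ℕ :=
  ((MS r W).filter (fun M => ∀ e ∈ M, e ∉ F)).card

open Classical in
/-- Recursion: the edge that contains `v`. Proof: `M ↦ (e, M \ {e})` where `e` is the edge of `M` with
`v ∈ e`; the inverse is `insert e`. Also `M ∈ MS r W ↔ IsMatching r W M`, since the edges of a matching
are subsets of `W`. -/
def S_rec : Prop :=
  ∀ (r : ℕ), 1 ≤ r → (∀ (W : Finset ℕ) (M : Finset (Finset ℕ)), M ∈ MS r W ↔ IsMatching r W M) ∧
    ∀ (F : Set (Finset ℕ)) (W : Finset ℕ) (v : ℕ), v ∈ W →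
      av r F W = ∑ e ∈ (W.powersetCard r).filter (fun e => v ∈ e ∧ e ∉ F), av r F (W \ e)

/-- The number of the matchings. Proof: induction on `m` with `S_rec` for `F = ∅` and Mathlib's
`Nat.uniformBell_succ_left`, `Nat.uniformBell_mul_eq` (file `Mathlib/Combinatorics/Enumerative/Bell.lean`);
there are `(r m + r - 1).choose (r - 1)` sets of size `r` which contain a given element. The last
statement: the map `M ↦ M \ N` is a bijection of the matchings on `W` that contain `N` and the matchings
on `W \ N.biUnion id`. A matching on a set with `r m` elements has `m` edges. -/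
def S_num : Prop :=
  ∀ (r : ℕ), 1 ≤ r →
    (∀ (m : ℕ) (W : Finset ℕ), W.card = r * m → (MS r W).card = Nat.uniformBell m r) ∧
    (∀ m : ℕ, 0 < Nat.uniformBell m r) ∧
    (∀ (m : ℕ) (W : Finset ℕ) (M : Finset (Finset ℕ)), W.card = r * m → IsMatching r W M →
      M.card = m) ∧
    (∀ (m k : ℕ) (W : Finset ℕ) (N : Finset (Finset ℕ)), W.card = r * m → N.card = k →
      IsMatching r (N.biUnion id) N → N.biUnion id ⊆ W →
      ((MS r W).filter (fun M => N ⊆ M)).card = Nat.uniformBell (m - k) r)

open Classical in
/-- Matchings that avoid a family. Proof: induction on `T`. `T = 0` is clear. Step: take the vertex `v`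
for `U = W`; by `S_rec`, `av r F W = ∑ av r F (W \ e)` over the sets `e` of size `r` with `v ∈ e`,
`e ∉ F`; the induction hypothesis for `W \ e` (its subsets `U` satisfy the hypothesis with `T`) gives
`av r F (W \ e) ≤ (1 - p) ^ T * uniformBell (m - 1) r`, the number of these `e` is at most
`(1 - p) * (r m - 1).choose (r - 1)`, and
`(r m - 1).choose (r - 1) * uniformBell (m - 1) r = uniformBell m r`. (If `W` is empty the
hypothesis fails for `T ≥ 1`, so `m ≥ 1`.) -/
def S_avoid : Prop :=
  ∀ (r : ℕ) (p : ℝ), 1 ≤ r → 0 ≤ p → p ≤ 1 → ∀ (T m : ℕ) (F : Set (Finset ℕ)) (W : Finset ℕ),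
    W.card = r * m →
    (∀ U : Finset ℕ, U ⊆ W → W.card < U.card + r * T → ∃ v ∈ U,
      p * ((U.card - 1).choose (r - 1) : ℝ) ≤
        (((U.powersetCard r).filter (fun e => v ∈ e ∧ e ∈ F)).card : ℝ)) →
    (av r F W : ℝ) ≤ (1 - p) ^ T * (Nat.uniformBell m r : ℝ)

/-! ### The upper bound -/

/-- The number of the cliques with `k` edges inside `{1, …, n}`. Proof: such an `N` is determined by its
vertex set `U = N.biUnion id`, a subset with `r k` elements, and by the clique on `{1, …, r k}` obtained
by the increasing bijection of `U` and `{1, …, r k}` (`S_mono`). -/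
def S_place : Prop :=
  ∀ (r k n : ℕ) (Ps : Set (List Letter)), 1 ≤ r →
    Nat.card {N : Finset (Finset ℕ) // N.card = k ∧ N.biUnion id ⊆ Icc 1 n ∧
      IsMatching r (N.biUnion id) N ∧ IsClique Ps N} ≤
    n.choose (r * k) *
      Nat.card {N : Finset (Finset ℕ) // IsMatching r (Icc 1 (r * k)) N ∧ IsClique Ps N}

/-- First moment. Proof: if `k ≤ z Ps M` then `M` contains a clique with exactly `k` edges (a subset of a
clique is a clique); sum over the cliques `N` of `S_place` the number of the matchings containing `N`
(`S_num`). -/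
def S_first : Prop :=
  ∀ (r k n : ℕ) (Ps : Set (List Letter)), 1 ≤ r → k ≤ n →
    Nat.card {M : Finset (Finset ℕ) // IsMatching r (Icc 1 (r * n)) M ∧ k ≤ z Ps M} ≤
      (r * n).choose (r * k) *
      Nat.card {N : Finset (Finset ℕ) // IsMatching r (Icc 1 (r * k)) N ∧ IsClique Ps N} *
      Nat.uniformBell (n - k) r

/-- Estimate of the quotient. Proof: by `Nat.uniformBell_mul_eq`,
`uniformBell m r * (r!) ^ m * m! = (m r)!`, so the left side times `(r k)!` is
`(r!) ^ k * n! / (n - k)! ≤ (r!) ^ k * n ^ k` times `uniformBell n r`; and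
`(r k)! ≥ (r k / e) ^ (r k) ≥ (k / e) ^ (r k)`. -/
def S_quot : Prop :=
  ∀ r k n : ℕ, 1 ≤ r → 1 ≤ k → k ≤ n →
    ((r * n).choose (r * k) : ℝ) * (Nat.uniformBell (n - k) r : ℝ) ≤
      (((r.factorial : ℝ) * Real.exp r * n) / (k : ℝ) ^ r) ^ k * (Nat.uniformBell n r : ℝ)

/-- The upper bound. Proof: let the number of the cliques be at most `D ^ k` (`S_expo`) and
`C = (2 D r! e^r) ^ (1/r) + 1`. If `z > C n^(1/r)` then `z ≥ k := ⌊C n^(1/r)⌋ + 1`. If `k > n` this is
impossible (`z ≤` number of edges `= n`). Otherwise by `S_first`, `S_quot` the probability is at most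
`(D r! e^r n / k ^ r) ^ k ≤ (1/2) ^ k`, which tends to `0` as `k ≥ n^(1/r)`. -/
def S_up : Prop :=
  ∀ (r : ℕ) (Ps : Set (List Letter)), 1 ≤ r → (∀ P ∈ Ps, IsPattern r P) →
    (∀ P ∈ Ps, ∀ Q ∈ Ps, ¬ Harmonious r P Q) → ∃ C : ℝ, 0 < C ∧
      Tendsto (fun n : ℕ => prob r n (fun M => ¬ ((z Ps M : ℝ) ≤ C * (n : ℝ) ^ (1 / r : ℝ))))
        atTop (𝓝 0)

/-! ### The lower bound -/

/-- `e` is a transversal of the cells `c i j`, `i < r` (for this `j`). -/
def Trans (r : ℕ) (c : ℕ → ℕ → Finset ℕ) (j : ℕ) (e : Finset ℕ) : Prop :=
  e.card = r ∧ ∀ i < r, (e ∩ c i j).Nonempty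

/-- Cells. Proof: take a `{P}`-clique with exactly `K` edges as a sequence `x` (`S_sq`), vertex set `V`
with `r K` elements; for `v ∈ V` let `ρ v` be the number of the elements of `V` smaller than `v`
(`0 ≤ ρ v < r K`). Let `c i j` be the set of the integers `ρ L + 1, …, ρ L + L`, `ρ = ρ (el (x j) i)`
(`j < K`, `i < r`). The cells are disjoint, have `L` elements and are contained in
`{1, …, r K L}`. Transversals `e` of the cells of `j` and `f` of the cells of `j'` have exactly one
element in each cell (they have `r` elements, the cells are disjoint), so `el e i ∈ c i j`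
(the cells `c 0 j, c 1 j, …` are in increasing order), and the comparisons of `el e i` and `el f i'` are
those of `el (x j) i` and `el (x j') i'`: `word e f = P` by `S_word`, and `pattern e f = word e f`
because `el e 0 < el f 0`. -/
def S_cells : Prop :=
  ∀ (r : ℕ) (P : List Letter), 1 ≤ r → Collectable r P → ∀ n K L : ℕ, K * L ≤ n →
    ∃ c : ℕ → ℕ → Finset ℕ,
      (∀ i < r, ∀ j < K, c i j ⊆ Icc 1 (r * n) ∧ (c i j).card = L) ∧
      (∀ i < r, ∀ j < K, ∀ i' < r, ∀ j' < K, (i, j) ≠ (i', j') → Disjoint (c i j) (c i' j')) ∧
      ∀ j j' : ℕ, j < j' → j' < K → ∀ e f : Finset ℕ, Trans r c j e → Trans r c j' f →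
        pattern e f = P

open Classical in
/-- A vertex with many transversals. Proof: if for every `j ∈ S` some cell `c i j` has at least `L / 2`
elements outside `U`, then (disjoint cells) `W \ U` has at least `|S| L / 2 ≥ r T` elements,
contradiction. So for some `j ∈ S` each cell `c i j`, `i < r`, has more than `L / 2` elements in `U`.
Take `v ∈ c 0 j ∩ U`; choosing elements of the cells `c i j ∩ U`, `0 < i < r`, gives at least
`(L / 2) ^ (r - 1)` different transversals containing `v`. Finally
`(U.card - 1).choose (r - 1) ≤ (r n) ^ (r - 1)`. -/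
def S_deplete : Prop :=
  ∀ (r n K L T : ℕ) (c : ℕ → ℕ → Finset ℕ), 1 ≤ r → 1 ≤ n →
    (∀ i < r, ∀ j < K, c i j ⊆ Icc 1 (r * n) ∧ (c i j).card = L) →
    (∀ i < r, ∀ j < K, ∀ i' < r, ∀ j' < K, (i, j) ≠ (i', j') → Disjoint (c i j) (c i' j')) →
    ∀ S : Finset ℕ, S ⊆ range K → 2 * (r * T) ≤ S.card * L →
    ∀ U : Finset ℕ, U ⊆ Icc 1 (r * n) → (Icc 1 (r * n)).card < U.card + r * T →
      ∃ v ∈ U, ((L : ℝ) / (2 * r * n)) ^ (r - 1) * ((U.card - 1).choose (r - 1) : ℝ) ≤
        (((U.powersetCard r).filter (fun e => v ∈ e ∧ e ∈ {e | ∃ j ∈ S, Trans r c j e})).card : ℝ)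

/-- Few good places are unlikely. Proof: let `p = (L / (2 r n)) ^ (r - 1) ≤ 1`. If `P ∈ Ps` and
`z Ps M < K / 2`, then the set of the `j < K` such that some edge of `M` is a transversal for `j` has
less than `K / 2` elements (choose one edge for each such `j`: they are different, as the cells are
disjoint, and form a `{P}`-clique by the last property of the cells, pattern is symmetric for disjoint
nonempty sets), so `M` has no edge in `{e | ∃ j ∈ S, Trans r c j e}` for a set `S` with
`2 |S| ≥ K`. There are at most `2 ^ K` sets `S`, and for each one `S_avoid` with `S_deplete` bounds the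
number of the matchings (`4 r T ≤ K L`). -/
def S_few : Prop :=
  ∀ (r : ℕ) (P : List Letter) (Ps : Set (List Letter)), 1 ≤ r → Collectable r P → P ∈ Ps →
    ∀ n K L T : ℕ, 1 ≤ n → K * L ≤ n → 4 * (r * T) ≤ K * L →
      prob r n (fun M => 2 * z Ps M < K) ≤
        2 ^ K * (1 - ((L : ℝ) / (2 * r * n)) ^ (r - 1)) ^ T

/-- The lower bound. Proof: let `c0 > 0` be small, `K = ⌊c0 n^(1/r)⌋`, `L = ⌊n / K⌋`,
`T = ⌊K L / (4 r)⌋`, `p = (L / (2 r n)) ^ (r - 1)`. For large `n`: `L ≥ n / (2 K)`,
`T ≥ n / (16 r)`, so `p T ≥ n / (16 r (4 r K) ^ (r - 1)) ≥ K` if `c0 ^ r ≤ 1 / (16 r (4 r) ^ (r-1))`.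
Then the bound of `S_few` is at most `2 ^ K exp (-p T) ≤ (2 / e) ^ K → 0`. And `2 z ≥ K` implies
`z ≥ (c0 / 4) n^(1/r)` for large `n`. -/
def S_low : Prop :=
  ∀ (r : ℕ) (P : List Letter) (Ps : Set (List Letter)), 1 ≤ r → Collectable r P → P ∈ Ps →
    ∃ c : ℝ, 0 < c ∧
      Tendsto (fun n : ℕ => prob r n (fun M => ¬ (c * (n : ℝ) ^ (1 / r : ℝ) ≤ (z Ps M : ℝ))))
        atTop (𝓝 0)

/-- The final statement. Proof: `S_up`, `S_low`; the probability of the complement of the event is at
most the sum of two probabilities that tend to `0` (`prob` is monotone, subadditive, and the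
probabilities of an event and of its complement sum to `1` as there is a matching, `S_num`). -/
def S_final : Prop :=
  ∀ (r : ℕ) (Ps : Set (List Letter)), 1 ≤ r → (∀ P ∈ Ps, IsPattern r P) →
    (∀ P ∈ Ps, ∀ Q ∈ Ps, ¬ Harmonious r P Q) → (∃ P ∈ Ps, Collectable r P) →
    ∃ c C : ℝ, 0 < c ∧ 0 < C ∧ Tendsto (fun n : ℕ => prob r n (fun M =>
      c * (n : ℝ) ^ (1 / r : ℝ) ≤ (z Ps M : ℝ) ∧ (z Ps M : ℝ) ≤ C * (n : ℝ) ^ (1 / r : ℝ)))
      atTop (𝓝 1)

end Pool.Agent.Q157.OM
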